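import Pool.Agent.Run7.h34.OK.Hyp

/-!
# Kobayashi hyperbolic orbifold pairs and finiteness of integral points

`X` is a projective variety over a number field `K`, the zero set in projective `n`-space of finitely
many forms `F i` over `𝓞 K` of degree at most `d`. There are numbers `B` and `m₀`, which depend only
on `n` and `d`, such that for all `K`, `σ : K → ℂ` and `X`:

1. The following are equivalent:
* for all number fields `L ⊇ K`, all systems of `n + 1` hyperplanes over `L` without common point and
  all finitely generated groups `Γ ⊆ Lˣ`, only finitely many points of `X(L)` have homogeneous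
  coordinates for which the `n + 1` linear forms take values in `Γ ∪ {0}`;
* `X(ℂ)` contains no nonconstant monomial curve `t ↦ S (x_0 t ^ k_0, ..., x_n t ^ k_n)` with exponents
  at most `B`;
* for all `m ≥ m₀` and all systems of `n + 1` hyperplanes `H_j` over `ℂ` without common point the
  orbifold pair `(X(ℂ), (1 - 1 / m) ∑ H_j)` is Kobayashi hyperbolic: the pseudodistance given by the
  chains of holomorphic discs in `X(ℂ)` that meet the hyperplanes only with multiplicities `≥ m` (or
  lie in them) separates the points of `X(ℂ)`;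
* there is a number `m ≥ 0` such that these orbifold pairs are Kobayashi hyperbolic (for `m = 0` this
  says that `X(ℂ)` is Kobayashi hyperbolic, the hypothesis of Lang's conjecture).
2. The same for the fixed system of the coordinate hyperplanes.
3. Let `m ≥ m₀` and let `X_m` be the variety given by the forms `F i (x_0 ^ m, ..., x_n ^ m)`. Then
  `X_m(ℂ)` is Kobayashi hyperbolic if and only if, for all number fields `L ⊇ K` and all finitely
  generated groups `Γ ⊆ Lˣ`, only finitely many points of `X_m(L)` have homogeneous coordinates in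
  `Γ ∪ {0}`; also, if and only if `X_m(ℂ)` contains no nonconstant curve
  `t ↦ (x_0 t ^ k_0, ..., x_n t ^ k_n)` with exponents at most `B`. If `X_m(L)` is finite for all
  number fields `L ⊇ K` then `X_m(ℂ)` is Kobayashi hyperbolic (the converse of Lang's conjecture).
-/

set_option autoImplicit false

namespace Pool.Agent.Results.MP_627a61_nt.HyperbolicOrbifolds

open MvPolynomial Pool.Agent.Q72.OK Run7.h34.OK
open scoped NumberField

theorem result (n d : ℕ) : ∃ B m₀ : ℕ, ∀ (K : Type) [Field K] [NumberField K] (σ : K →+* ℂ)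
    (ι : Type) [Finite ι] (F : ι → MvPolynomial (Fin (n + 1)) (𝓞 K)),
    (∀ i, ∃ e ≤ d, (F i).IsHomogeneous e) →
    List.TFAE [IntegralFinite F (oneForm K n), ∀ S x k, ¬ MonCurve σ F B S x k,
      ∀ m ≥ m₀, ∀ ℓ, Hyperbolic m ℓ (cpts σ F), ∃ m, ∀ ℓ, Hyperbolic m ℓ (cpts σ F)] ∧
    List.TFAE [CoordFinite F (oneForm K n), ∀ x k, ¬ MonCurve σ F B (LinearEquiv.refl ℂ _) x k,
      ∀ m ≥ m₀, Hyperbolic m (LinearEquiv.refl ℂ _) (cpts σ F),
      ∃ m, Hyperbolic m (LinearEquiv.refl ℂ _) (cpts σ F)] ∧
    ∀ m : ℕ, m₀ ≤ m →
      List.TFAE [Hyperbolic 0 (LinearEquiv.refl ℂ _) (cpts σ (powForms m F)),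
        CoordFinite (powForms m F) (oneForm K n),
        ∀ x k, ¬ MonCurve σ (powForms m F) B (LinearEquiv.refl ℂ _) x k] ∧
      (RationalFinite (powForms m F) (oneForm K n) →
        Hyperbolic 0 (LinearEquiv.refl ℂ _) (cpts σ (powForms m F))) :=
  ⟨BB n d, M0 n d, fun _ _ _ σ _ _ F hF =>
    ⟨hyp_all σ F hF, hyp_coord σ F hF, fun _ hm => hyp_pow σ F hF hm⟩⟩

end Pool.Agent.Results.MP_627a61_nt.HyperbolicOrbifolds
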