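import Pool.Agent.Run7.h316.EQ.MS
import Pool.Agent.Run7.h316.EQ.Typ
import Pool.Agent.Run7.h316.EQ.Cnt

/-!
# Cyclic covers of products of CM elliptic curves whose coefficients are primes, or run through
# equidistributed, metric or random sequences: rational points over all number fields

`K` is a number field and `E_i : y² = x³ + a_i x` or `y² = x³ + b_i`, `a_i, b_i ∈ 𝓞 K` different from zero,
`i = 1, …, r`, are elliptic curves over `K` (their ranks over the finite extensions of `K` are unbounded).
`S` is a set of monomials of multidegree `(d_1, …, d_r)`, `m ∣ d_i`, in the homogeneous coordinates of the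
`r` plane cubics, containing the pure monomials `∏ V_{i, σ(i)} ^ {d_i}` (for example all monomials of this
multidegree). The cyclic covers

  `X_c : w ^ m = Σ_{e ∈ S} c_e V^e`, `V ∈ E_1 × … × E_r`, `c_e ∈ 𝓞 K`,

are projective varieties over `K`; for `m ≥ 2`, `d_i > 0` and general `c` they are smooth, of general type,
with maximal Albanese dimension.

`Usually … Ω T c`: the `c w ∈ (𝓞 K)^S ≅ ℤ^(n |S|)`, `w ∈ Ω`, `n = [K : ℚ]`, are vectors of coefficients,
the `T M ⊂ Ω` finite sets, and for ALL number fields `L ⊃ K` with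

* `√-1 ∉ L` if there is a curve `y² = x³ + a_i x`, `√-3 ∉ L` if there is a curve `y² = x³ + b_i`,
* `m` is even, or `L` contains the `l`-th roots of unity for a prime divisor `l` of `m`,

the proportion of the `w ∈ T M` for which `X_(c w)` has an `L`-rational point tends to zero, `M → ∞`.

**Theorem.** `Usually` is a robust property (`Pool.Agent.Run7.h316.EQ.Robust`), for all these `L` at once:

(1) All dominated families have it: there are `C`, `A`, `M` such that for all squarefree `q` prime to `M` at
most the proportion `C (q / φ(q)) ^ A q ^ (-n |S|) + o(1)` of the `c w`, `w ∈ T M`, is in a given class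
modulo `q`. (All equidistributed sequences, along arbitrary sets of times, are dominated, and all their
subfamilies of positive lower density.)
(2) - (4) Metric sequences: `(⌊f_{i,l}(x_i)⌋)_i` for Koksma sequences `f_{i,0}, f_{i,1}, …`,
`(⌊a_{i,l} x_i⌋)_i` for arbitrary sequences of different integers (or of real numbers with a gap) and
`(⌊ξ_i x_i ^ (k_l)⌋)_i`, for almost all `x`.
(5) Random orbits of groups of integral matrices of determinant one which generate `SL(ℤ/q)` for all `q`
prime to some number (all Zariski dense groups, possibly of infinite index).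
(6) Generalised polynomials `(⌊∑_t a_{i,t} l ^ t⌋)_i` at the integers and at the primes `l` of `(M, 2M]`.
(7) PRIME COEFFICIENTS: for all these `L` the proportion of the vectors `c` of prime numbers `≤ M` for which
`X_c` has an `L`-rational point tends to zero.

In all these families 100 % of the varieties `X_c` have no rational points over any given field `L`. The
result for boxes of coefficients and `L = K` is `CyclicCoversNumberFields` (helper901).

Proof. The Mordell-Weil sieve of the project MS of helper901 (with the contributions listed there): for a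
product `q` of primes `p` of degree one with `p ≡ 3 (mod 4)`, `p ≡ 2 (mod 3)` (if needed), whose `p + 1`
divides `N`, the points of `E_1 × … × E_r` over `L` fall in at most `N ^ R` classes, and each of them is
compatible with at most the proportion `(2/3) ^ (number of the p)` of the coefficient vectors modulo `q`; the
number of the `p` can be much larger than `log N`. So for each `L` the exceptional set is strongly null
(`Pool.Agent.Run7.h316.EQ.MS.strongL`): for all `D`, `A` and `ε > 0` there is a squarefree number `q` prime to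
`D` such that at most the proportion `ε (φ(q) / q) ^ A` of the classes modulo `q` contain elements of it. Metric
sequences: `Pool.Agent.N24.KM` (helpers 24, 344, 617, 199, 764, 432, 286); random orbits:
`Pool.Agent.N24.RW` (helpers 24, 123, 195, 300, 543, 765); generalised polynomials: `Pool.Agent.N666.TM`
(helper666); `Pool.Agent.N918.EQ` (helper918); primes: the prime number theorem for arithmetic progressions
(helper923).
-/

set_option autoImplicit false

namespace Pool.Agent.Results.MP_627a61_nt.RobustCyclicCovers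

open NumberField
open Pool.Agent.Run7.h316.EQ (StrongNull Rare Robust)

/-- the homogeneous Weierstrass equation: `V` represents a point of `y² = x³ + a x + b` -/
def OnE {L : Type} [Field L] (a b : L) (V : Fin 3 → L) : Prop :=
  V ≠ 0 ∧ V 1 ^ 2 * V 2 = V 0 ^ 3 + a * V 0 * V 2 ^ 2 + b * V 2 ^ 3

/-- the set of the `c`, `c_e = ∑_j c_(e,j) ω_j ∈ 𝓞 K`, such that the cyclic cover
`X_c : w ^ m = Σ_{e ∈ S} c_e V^e` of `E_1 × … × E_r` has an `L`-rational point -/
def HasPoint {K : Type} (L : Type) [Field K] [Field L] [Algebra K L] {n r : ℕ}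
    (ω : Module.Basis (Fin n) ℤ (𝓞 K)) (a b : Fin r → 𝓞 K) (m : ℕ)
    (S : Finset (Fin r → Fin 3 → ℕ)) : Set (S × Fin n → ℤ) :=
  {c | ∃ (V : Fin r → Fin 3 → L) (w : L),
    (∀ i, OnE (algebraMap K L (a i)) (algebraMap K L (b i)) (V i)) ∧
      w ^ m = ∑ e : S, algebraMap K L ((∑ j, c (e, j) • ω j : 𝓞 K) : K) *
        ∏ i, ∏ j, V i j ^ e.1 i j}

/-- The conditions on the number field `L`. -/
def Admissible {K : Type} (L : Type) [Field K] [Field L] {r : ℕ} (a b : Fin r → 𝓞 K) (m : ℕ) : Prop :=
  ((∃ i, b i = 0) → ¬ ∃ x : L, x ^ 2 = -1) ∧ ((∃ i, a i = 0) → ¬ ∃ x : L, x ^ 2 = -3) ∧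
    ∃ l : ℕ, l.Prime ∧ l ∣ m ∧ (l = 2 ∨ ∃ ζ : L, IsPrimitiveRoot ζ l)

/-- For all admissible number fields `L ⊃ K` the proportion of the `w` in `T M` for which `X_(c w)` has an
`L`-rational point tends to zero, `M → ∞`. -/
def Usually {K : Type} [Field K] [NumberField K] {n r : ℕ}
    (ω : Module.Basis (Fin n) ℤ (𝓞 K)) (a b : Fin r → 𝓞 K) (m : ℕ)
    (S : Finset (Fin r → Fin 3 → ℕ)) (Ω : Type) (T : ℕ → Finset Ω) (c : Ω → S × Fin n → ℤ) : Prop :=
  ∀ (L : Type) [Field L] [NumberField L] [Algebra K L], Admissible L a b m →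
    ∀ ε : ℝ, 0 < ε → ∃ M₀ : ℕ, ∀ M : ℕ, M₀ ≤ M →
      (({w : Ω | w ∈ T M ∧ c w ∈ HasPoint L ω a b m S}.ncard : ℕ) : ℝ) ≤ ε * (T M).card

theorem result (K : Type) [Field K] [NumberField K] (n : ℕ) (ω : Module.Basis (Fin n) ℤ (𝓞 K))
    (r : ℕ) (a b : Fin r → 𝓞 K) (hE : ∀ i, (b i = 0 ∧ a i ≠ 0) ∨ (a i = 0 ∧ b i ≠ 0))
    (m : ℕ) (hm : 1 ≤ m) (d : Fin r → ℕ) (hd : ∀ i, m ∣ d i)
    (S : Finset (Fin r → Fin 3 → ℕ)) (hS : ∀ e ∈ S, ∀ i, ∑ j, e i j = d i)
    (hpure : ∀ σ : Fin r → Fin 3, (fun i j => if j = σ i then d i else 0) ∈ S) :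
    Robust (Usually ω a b m S) := by
  have hA : ∀ (L : Type) [Field L] [NumberField L] [Algebra K L], Admissible L a b m →
      StrongNull (HasPoint L ω a b m S) := by
    intro L _ _ _ hL
    exact Pool.Agent.Run7.h316.EQ.MS.strongL ω a b hE m hm d hd S hS hpure hL
  have hcl : Countable (AlgebraicClosure K) := Pool.Agent.Run7.h316.EQ.Cnt.countable_cl K
  have hN : Nonempty (Fin n) := ω.index_nonempty
  have hne : Nonempty (S × Fin n) := ⟨⟨⟨_, hpure fun _ => 0⟩, Classical.arbitrary _⟩⟩
  refine Pool.Agent.Run7.h316.EQ.robust_countable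
    (I := {θ : AlgebraicClosure K // Admissible (IntermediateField.adjoin K {θ}) a b m})
    (fun i => HasPoint (IntermediateField.adjoin K {i.1}) ω a b m S) ?_ _ ?_
  · intro i
    haveI : FiniteDimensional K (IntermediateField.adjoin K {i.1}) :=
      IntermediateField.adjoin.finiteDimensional (Algebra.IsIntegral.isIntegral i.1)
    haveI : NumberField (IntermediateField.adjoin K {i.1}) :=
      NumberField.of_module_finite K _
    exact hA _ i.2
  · intro Ω T c hR L _ _ _ hL ε hε
    obtain ⟨θ, g, hg⟩ := Pool.Agent.Run7.h316.EQ.MS.cover (K := K) (L := L)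
    refine Rare.mono ?_ (hR ⟨θ, Pool.Agent.Run7.h316.EQ.MS.Good.of_surj g hg hL⟩) ε hε
    exact Pool.Agent.Run7.h316.EQ.MS.hasPt_mono g ω a b m S

end Pool.Agent.Results.MP_627a61_nt.RobustCyclicCovers
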