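import Mathlib
import Pool.Agent.Run7.h28.BV.Hom

/-!
# Rational points of projective varieties above sparse points of projective space

Let `X` be a projective variety with a finite projection to `ℙ^(n-1)`, étale over the point `c`.  We
prove that the rational points of `X` whose image `x` is sparse and close to `c` (their other
coordinates are arbitrary) lie on rational curves contained in `X` or have bounded height,
uniformly in `X`.  So such points of Brody hyperbolic varieties are bounded.
-/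

open Height

namespace Pool.Agent.Results.MP_627a61_nt.SparseProjections

/-- The polynomial `P (x, y_i)` in the coordinates `x_l` and `y_i`. -/
noncomputable def eqn {n m : ℕ} (P : Polynomial (MvPolynomial (Fin n) ℤ)) (i : Fin m) :
    MvPolynomial (Fin n ⊕ Fin m) ℤ :=
  P.eval₂ (MvPolynomial.rename Sum.inl :
    MvPolynomial (Fin n) ℤ →ₐ[ℤ] MvPolynomial (Fin n ⊕ Fin m) ℤ).toRingHom
    (MvPolynomial.X (Sum.inr i))

/-- The polynomial `P (c, Y)`. -/
noncomputable def specialise {n : ℕ} {K : Type} [Field K] (c : Fin n → K)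
    (P : Polynomial (MvPolynomial (Fin n) ℤ)) : Polynomial K :=
  P.map (MvPolynomial.aeval c : MvPolynomial (Fin n) ℤ →ₐ[ℤ] K).toRingHom

/-- The complex projective variety with the homogeneous equations `G` is Brody hyperbolic: every
holomorphic map from `ℂ` to it, given by entire functions `f i` without common zeros, is constant. -/
def BrodyHyperbolic {σ ι : Type} (G : ι → MvPolynomial σ ℤ) : Prop :=
  ∀ f : σ → ℂ → ℂ, (∀ i, Differentiable ℂ (f i)) → (∀ s, ∃ i, f i s ≠ 0) →
    (∀ j s, MvPolynomial.aeval (fun i => f i s) (G j) = 0) →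
    ∀ s s' i j, f i s * f j s' = f j s * f i s'

/-- The point with the homogeneous coordinates `z` lies on a rational curve on the variety with the
homogeneous equations `G`: it is the value at `1` of a nonconstant map from the affine line, given by
complex polynomials `Q i` without common zeros. -/
def OnRationalCurve {σ ι : Type} (G : ι → MvPolynomial σ ℤ) (z : σ → ℚ) : Prop :=
  ∃ Q : σ → Polynomial ℂ, (∀ s, ∃ i, (Q i).eval s ≠ 0) ∧
    (∀ j, MvPolynomial.aeval Q (G j) = 0) ∧ (∀ i, (Q i).eval 1 = z i) ∧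
    ∃ s s' i j, (Q i).eval s * (Q j).eval s' ≠ (Q j).eval s * (Q i).eval s'

/-- Let `K` be a number field, `φ` a complex embedding of `K`, `Γ` a finitely generated subgroup of
`Kˣ`, and let `n, m, g, d, k`, `q_i ≥ 1`, `B`, `δ > 0` be given.  There is a constant `C` such that the
following holds for all `M ≥ 1`.

Let `X` be a projective variety over `ℚ` with the homogeneous coordinates `x_1, …, x_n`,
`y_1, …, y_m`, given by `g` homogeneous equations `G` with integer coefficients at most `M`, of degree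
at most `d`, such that the coordinate `y_i` satisfies on `X` an equation `F_i (x, y_i) = 0` (in the
ideal generated by `G`), where `F_i` is homogeneous of degree `q_i`, monic in `y_i`, with
coefficients at most `M` (so the projection of `X` to `ℙ^(n-1)` is finite).  Let `c ∈ K^n` have
coordinates of height at most `M` such that the polynomials `F_i (c, Y)` are separable and split over
`K`.

Let `P = (x : y)` be a rational point of `X`, with coprime integers `x_l`, where each `x_l` is a sum
of `k` terms `a u` with `u ∈ Γ` and `a ∈ K` of height at most `M`, and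
`|φ (x_l - c_l v)| ≤ M (1 + |x|) ^ (1 - δ)` for an element `v ∈ Γ` of height at most
`M (1 + |x|) ^ B`; there is no condition on `y`.  Then the coordinates of `P` are at most `(C M) ^ C` in
absolute value (the `y_i` are integers), or `P` lies on a rational curve on `X`.  In particular the
coordinates of `P` are at most `(C M) ^ C` if `X` is Brody hyperbolic. -/
theorem result {K : Type} [Field K] [NumberField K] (φ : K →+* ℂ) (Γ : Subgroup Kˣ) (hΓ : Γ.FG)
    (n m g d k : ℕ) (q : Fin m → ℕ) (hq : ∀ i, 0 < q i) (B δ : ℝ) (hδ : 0 < δ) :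
    ∃ C : ℝ, 0 < C ∧ ∀ (M : ℝ) (G : Fin g → MvPolynomial (Fin n ⊕ Fin m) ℤ)
      (F : Fin m → Polynomial (MvPolynomial (Fin n) ℤ)) (c : Fin n → K),
      1 ≤ M → (∀ i, ∃ e ≤ d, (G i).IsHomogeneous e) →
      (∀ i s, |(((G i).coeff s : ℤ) : ℝ)| ≤ M) →
      (∀ i, (F i).Monic) → (∀ i, (F i).natDegree = q i) →
      (∀ i, ∀ j ≤ q i, ((F i).coeff j).IsHomogeneous (q i - j)) →
      (∀ i j s, |((((F i).coeff j).coeff s : ℤ) : ℝ)| ≤ M) →
      (∀ i, eqn (F i) i ∈ Ideal.span (Set.range G)) →
      (∀ l, mulHeight₁ (c l) ≤ M) →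
      (∀ i, (specialise c (F i)).Separable) → (∀ i, (specialise c (F i)).Splits) →
      ∀ (v : Γ) (u : Fin n → Fin k → Γ) (a : Fin n → Fin k → K) (x : Fin n → ℤ) (y : Fin m → ℚ),
      (∀ i, MvPolynomial.aeval (Sum.elim (fun l => (x l : ℚ)) y) (G i) = 0) →
      Finset.univ.gcd x = 1 →
      (∀ l r, mulHeight₁ (a l r) ≤ M) →
      (∀ l, (x l : K) = ∑ r, a l r * ((u l r : Kˣ) : K)) →
      mulHeight₁ ((v : Kˣ) : K) ≤ M * (1 + ∑ l, |(x l : ℝ)|) ^ B →
      (∀ l, ‖φ ((x l : K) - c l * ((v : Kˣ) : K))‖ ≤ M * (1 + ∑ l, |(x l : ℝ)|) ^ (1 - δ)) →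
      (((∀ l, |(x l : ℝ)| ≤ (C * M) ^ C) ∧ ∀ i, |((y i : ℚ) : ℝ)| ≤ (C * M) ^ C) ∨
        OnRationalCurve G (Sum.elim (fun l => (x l : ℚ)) y)) ∧
      (BrodyHyperbolic G →
        (∀ l, |(x l : ℝ)| ≤ (C * M) ^ C) ∧ ∀ i, |((y i : ℚ) : ℝ)| ≤ (C * M) ^ C) := by
  obtain ⟨C, hC, h⟩ := Pool.Agent.Run7.h28.BV.mainP φ Γ hΓ n m g d k q q hq B δ hδ
  refine ⟨C, hC, fun M G F c h1 h2 h3 h4 h5 h6 h7 h8 h9 h10 h11 v u a x y h12 h13 h14 h15 h16
    h17 => ?_⟩
  obtain ⟨z, hzx, hzy, hz⟩ := Pool.Agent.Run7.h28.BV.integral G F h4 h8 x y h12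
  obtain ⟨b, hb⟩ := Pool.Agent.Run7.h28.BV.bezout x h13
  have hxx : (fun l => z (Sum.inl l)) = x := funext hzx
  have key : ((∀ l, |(x l : ℝ)| ≤ (C * M) ^ C) ∧ ∀ i, |((y i : ℚ) : ℝ)| ≤ (C * M) ^ C) ∨
        OnRationalCurve G (Sum.elim (fun l => (x l : ℚ)) y) := by
    have hG : ∀ j, ∃ e, (G j).IsHomogeneous e := fun j => by
      obtain ⟨e, -, he⟩ := h2 j
      exact ⟨e, he⟩
    have htd : ∀ i, (G i).totalDegree ≤ d := fun i => by
      obtain ⟨e, he1, he2⟩ := h2 i
      exact he2.totalDegree_le.trans he1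
    have htop : ∀ i, Pool.Agent.Run7.h28.BV.topAt (q i) (F i) c = specialise c (F i) := fun i =>
      Pool.Agent.Run7.h28.BV.topAt_hom (F i) (h5 i) (h6 i) c
    rcases h M G F c h1 htd h3
      (fun i => Pool.Agent.Run7.h28.BV.adm_hom (F i) (h4 i) (h5 i) (h6 i) (h7 i)) h8 h9
      (fun i => by rw [htop]; exact h10 i) (fun i => by rw [htop]; exact h11 i) v u a z hz
      ⟨b, by simp only [hzx]; exact hb⟩ h14 (fun l => by rw [hzx]; exact h15 l)
      (by simp only [hzx]; exact h16) (fun l => by simp only [hzx]; exact h17 l) with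
      hk | ⟨Z, hZn, hZ1, hZ2⟩
    · refine Or.inl ⟨fun l => ?_, fun i => ?_⟩
      · have h18 := hk (Sum.inl l)
        rwa [hzx] at h18
      · have h18 := hk (Sum.inr i)
        have h19 : ((y i : ℚ) : ℝ) = ((z (Sum.inr i) : ℤ) : ℝ) := by
          rw [← hzy i]
          norm_cast
        rwa [h19]
    · refine Or.inr ?_
      have hz0 : ∃ i, ((z i : ℤ) : ℂ) ≠ 0 := by
        by_contra hcon
        push Not at hcon
        have h18 : ∑ l, b l * x l = 0 := Finset.sum_eq_zero fun l _ => by
          have h19 := hcon (Sum.inl l)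
          rw [hzx] at h19
          have h20 : x l = 0 := by exact_mod_cast h19
          rw [h20, mul_zero]
        rw [hb] at h18
        exact one_ne_zero h18
      obtain ⟨Q, hQ1, hQ2, hQ3, i, j, hQ4⟩ := Pool.Agent.Run7.h28.BV.curve G hG Z
        (fun i => ((z i : ℤ) : ℂ)) hZ1 hz0 hZ2 hZn
      refine ⟨Q, hQ3, hQ2, fun i => ?_, ?_⟩
      · rw [hQ1]
        rcases i with l | i
        · rw [hzx]
          norm_cast
        · show ((z (Sum.inr i) : ℤ) : ℂ) = ((y i : ℚ) : ℂ)
          rw [← hzy i]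
          norm_cast
      · by_contra hcon
        push Not at hcon
        apply hQ4
        refine Polynomial.funext fun s => ?_
        rw [Polynomial.eval_mul, Polynomial.eval_mul, Polynomial.eval_C, Polynomial.eval_C,
          ← hQ1 i, ← hQ1 j]
        exact hcon s 1 i j
  refine ⟨key, fun hB => ?_⟩
  rcases key with hk | ⟨Q, hQ1, hQ2, -, s, s', i, j, hQ4⟩
  · exact hk
  · exact absurd (hB (fun i s => (Q i).eval s) (fun i => (Q i).differentiable) hQ1 (fun j s => by
      have h18 := Pool.Agent.Run7.h28.BV.hom_aeval (Polynomial.evalRingHom s) Q (G j)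
      rw [hQ2 j, map_zero] at h18
      exact h18) s s' i j) hQ4

end Pool.Agent.Results.MP_627a61_nt.SparseProjections
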