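import Pool.Agent.Run7.h128.AU.Fin

/-!
# Rational points which are sums of few almost units

Let `K` be a number field and `X` a closed subset of projective `n`-space over `K`, given by forms
`G_1, …, G_m` of degrees `e_1, …, e_m`. Let `S` be a finite set of finite places of `K` and `r` a
number. We write the homogeneous coordinates of a point `x` of `X(K)` in any way as a sum
`x = y_1 + ⋯ + y_r` of vectors `y_j` of `K^(n+1)`, and measure how far the `r (n + 1)` numbers
`y_(j, a)` are from being proportional to `S`-units by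

  `N_S(y) = ∑_{w ∉ S} ∑_{(j, a), y_(j,a) ≠ 0} log (max_i |y_i|_w / |y_(j,a)|_w)`.

For `K = ℚ`, integers `y_(j, a)` without common factor and `S` a finite set of primes this is the
logarithm of the product of the parts prime to `S` of the nonzero `y_(j, a)`. Take for example
`r = 1`: then `N_S` measures the parts prime to `S` of the coordinates of `x`; or the digits of the
coordinates in an expansion with few large digits in a fixed base.

(1) There are constants `C`, `D`, which depend only on `K`, `S`, `n`, `r` and the degrees `e_k`,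
such that for all forms `G_k` of degree `e_k` over `K` and all `y`: either

  `h(x) ≤ C (1 + ∑ h(G_k) + N_S(y))`,

or `x` lies on a nonconstant rational curve in `X` of the form
`T ↦ ∑_j (y_(j, a) T ^ (l_(j, a)))_a` with exponents `l_(j, a) ≤ D` (`x` is its point at `T = 1`).
If `X` is Brody (equivalently Kobayashi) hyperbolic for one embedding of `K` in `ℂ`, then the first
inequality holds for all `y`.

(2) If `X` is hyperbolic for one embedding, then for all `S` and `r` there is `ε > 0` such that only
finitely many points `x` of `X(K)` can be written as a sum of `r` vectors with `N_S(y) ≤ ε h(x)`.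

(3) If `X` contains a nonconstant rational curve over `K`, then for some `S` and `r` the points of
`X(K)` which are sums of `r` vectors `y_j` with `N_S(y) = 0` have unbounded height.

Method. The terms of the expansion of `G_k(y_1 + ⋯ + y_r) = 0` are almost units. By the subspace
theorem the sum splits in vanishing sums of terms whose quotients have heights at most
`C (1 + h(G_k) + N_S(y))`. Choose a one-parameter group which is orthogonal to all exponents of
monomials in the `y_(j, a)` of such small height, and to nothing else: it moves `x` in `X`, and if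
it does not move `x`, then `x` is proportional to a partial sum of the `y_(j, a)` with quotients of
small height.
-/

set_option autoImplicit false

namespace Pool.Agent.Results.MP_627a61_nt.SumsOfAlmostUnits

open NumberField Height MvPolynomial Run7.h128.AU Pool.Agent.H458.Sp

theorem result (K : Type) [Field K] [NumberField K] (n m : ℕ) (e : Fin m → ℕ) :
    -- (1) the dichotomy, uniform in the variety, and the inequality for hyperbolic varieties
    (∀ (S : Finset (FinitePlace K)) (r : ℕ), ∃ (C : ℝ) (D : ℕ),
      ∀ G : Fin m → MvPolynomial (Fin (n + 1)) K, (∀ k, (G k).IsHomogeneous (e k)) →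
      (∀ y : Fin r → Fin (n + 1) → K, (fun a => ∑ j, y j a) ≠ 0 →
        (∀ k, eval (fun a => ∑ j, y j a) (G k) = 0) →
        logHeight (fun a => ∑ j, y j a) ≤ C * (1 + ∑ k, coefHeight (G k) +
          outside S fun p : Fin r × Fin (n + 1) => y p.1 p.2) ∨
        ∃ l : Fin r → Fin (n + 1) → ℕ, (∀ j a, l j a ≤ D) ∧
          (∀ k, aeval (curve l y) (G k) = 0) ∧
          ∃ a b, curve l y a * Polynomial.C (∑ j, y j b) ≠
            curve l y b * Polynomial.C (∑ j, y j a)) ∧
      ∀ σ : K →+* ℂ, BrodyHyperbolic (Set.range fun k => MvPolynomial.map σ (G k)) →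
        ∀ y : Fin r → Fin (n + 1) → K, (fun a => ∑ j, y j a) ≠ 0 →
        (∀ k, eval (fun a => ∑ j, y j a) (G k) = 0) →
        logHeight (fun a => ∑ j, y j a) ≤ C * (1 + ∑ k, coefHeight (G k) +
          outside S fun p : Fin r × Fin (n + 1) => y p.1 p.2)) ∧
    -- (2) finiteness
    (∀ G : Fin m → MvPolynomial (Fin (n + 1)) K, (∀ k, (G k).IsHomogeneous (e k)) →
      ∀ σ : K →+* ℂ, BrodyHyperbolic (Set.range fun k => MvPolynomial.map σ (G k)) →
      ∀ (S : Finset (FinitePlace K)) (r : ℕ), ∃ ε : ℝ, 0 < ε ∧
        {P : Projectivization K (Fin (n + 1) → K) | ∃ (y : Fin r → Fin (n + 1) → K)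
          (h : (fun a => ∑ j, y j a) ≠ 0), P = Projectivization.mk K _ h ∧
          (∀ k, eval (fun a => ∑ j, y j a) (G k) = 0) ∧
          (outside S fun p : Fin r × Fin (n + 1) => y p.1 p.2) ≤
            ε * logHeight (fun a => ∑ j, y j a)}.Finite) ∧
    -- (3) varieties with a rational curve
    ∀ (G : Fin m → MvPolynomial (Fin (n + 1)) K) (q : Fin (n + 1) → Polynomial K),
      (∀ k, aeval q (G k) = 0) →
      (∃ i j a b, (q i).eval a * (q j).eval b ≠ (q j).eval a * (q i).eval b) →
      ∃ (S : Finset (FinitePlace K)) (r : ℕ), ∀ B : ℝ, ∃ y : Fin r → Fin (n + 1) → K,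
        (fun a => ∑ j, y j a) ≠ 0 ∧ (∀ k, eval (fun a => ∑ j, y j a) (G k) = 0) ∧
        (outside S fun p : Fin r × Fin (n + 1) => y p.1 p.2) = 0 ∧
        B < logHeight (fun a => ∑ j, y j a) := by
  have h1 : ∀ (S : Finset (FinitePlace K)) (r : ℕ), ∃ (C : ℝ) (D : ℕ),
      ∀ G : Fin m → MvPolynomial (Fin (n + 1)) K, (∀ k, (G k).IsHomogeneous (e k)) →
      (∀ y : Fin r → Fin (n + 1) → K, (fun a => ∑ j, y j a) ≠ 0 →
        (∀ k, eval (fun a => ∑ j, y j a) (G k) = 0) →
        logHeight (fun a => ∑ j, y j a) ≤ C * (1 + ∑ k, coefHeight (G k) +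
          outside S fun p : Fin r × Fin (n + 1) => y p.1 p.2) ∨
        ∃ l : Fin r → Fin (n + 1) → ℕ, (∀ j a, l j a ≤ D) ∧
          (∀ k, aeval (curve l y) (G k) = 0) ∧
          ∃ a b, curve l y a * Polynomial.C (∑ j, y j b) ≠
            curve l y b * Polynomial.C (∑ j, y j a)) ∧
      ∀ σ : K →+* ℂ, BrodyHyperbolic (Set.range fun k => MvPolynomial.map σ (G k)) →
        ∀ y : Fin r → Fin (n + 1) → K, (fun a => ∑ j, y j a) ≠ 0 →
        (∀ k, eval (fun a => ∑ j, y j a) (G k) = 0) →
        logHeight (fun a => ∑ j, y j a) ≤ C * (1 + ∑ k, coefHeight (G k) +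
          outside S fun p : Fin r × Fin (n + 1) => y p.1 p.2) := by
    intro S r
    obtain ⟨C, D, h⟩ := dichotomy S n r m e
    refine ⟨C, D, fun G hG => ⟨h G hG, fun σ hyp y hx h0 => ?_⟩⟩
    rcases h G hG y hx h0 with h1 | ⟨l, _, h2, a, b, h3⟩
    · exact h1
    · exfalso
      apply h3
      have h4 := hyper_const e G hG σ hyp (curve l y) h2 a b
      simp only [curve_eval, one_pow, one_mul] at h4
      exact h4
  refine ⟨h1, ?_, fun G q hq hnc => converse G q hq hnc⟩
  intro G hG σ hyp S r
  obtain ⟨C, D, h⟩ := h1 S r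
  have h2 := (h G hG).2 σ hyp
  have hC1 : 1 ≤ max C 1 := le_max_right _ _
  refine ⟨1 / (2 * max C 1), by positivity, ?_⟩
  refine (Pool.Agent.TH409.SH.northcott_proj (n := n) K
    (Real.exp (2 * max C 1 * (1 + ∑ k, coefHeight (G k))))).subset ?_
  rintro P ⟨y, hx, rfl, h0, hy⟩
  refine ⟨_, hx, rfl, ?_⟩
  rw [← Real.log_le_iff_le_exp (mulHeight_pos _), ← logHeight_eq_log_mulHeight]
  have h3 := h2 y hx h0
  have h4 : 0 ≤ ∑ k, coefHeight (G k) := Finset.sum_nonneg fun k _ => logHeight_nonneg _
  have h5 := outside_nonneg S fun p : Fin r × Fin (n + 1) => y p.1 p.2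
  have h6 : logHeight (fun a => ∑ j, y j a) ≤ max C 1 * (1 + ∑ k, coefHeight (G k) +
      outside S fun p : Fin r × Fin (n + 1) => y p.1 p.2) :=
    h3.trans (mul_le_mul_of_nonneg_right (le_max_left _ _) (by linarith))
  have h7 : max C 1 * (1 / (2 * max C 1) * logHeight (fun a => ∑ j, y j a)) =
      logHeight (fun a => ∑ j, y j a) / 2 := by
    field_simp
  have h8 : max C 1 * (outside S fun p : Fin r × Fin (n + 1) => y p.1 p.2) ≤
      logHeight (fun a => ∑ j, y j a) / 2 := by
    rw [← h7]
    exact mul_le_mul_of_nonneg_left hy (by linarith)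
  nlinarith

end Pool.Agent.Results.MP_627a61_nt.SumsOfAlmostUnits
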